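import Mathlib
import Pool.Agent.R239.Fat.T12

/-! Linear algebra on the Riemann sphere: the chordal distance, Moebius maps close to constants. -/

set_option autoImplicit false

open Topology Filter Metric Set
open scoped OnePoint ComplexConjugate
open Pool.Agent.H790R3.RB (CV hF cr ND sp pr hc)
open Pool.Agent.H790R3.RB.SP (pr_zero pr_ne pr_hc sp_pr sp_cont pr_eq_iff continuousAt_pr)
open Pool.Agent.R239.Fat

namespace Pool.Agent.Helper39.MB

/-- Euclidean norm -/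
noncomputable def nE (p : ℂ × ℂ) : ℝ := Real.sqrt (‖p.1‖ ^ 2 + ‖p.2‖ ^ 2)

theorem nE_nonneg (p : ℂ × ℂ) : 0 ≤ nE p := Real.sqrt_nonneg _

theorem nE_sq (p : ℂ × ℂ) : nE p ^ 2 = ‖p.1‖ ^ 2 + ‖p.2‖ ^ 2 := Real.sq_sqrt (by positivity)

theorem fst_le_nE (p : ℂ × ℂ) : ‖p.1‖ ≤ nE p :=
  Real.le_sqrt_of_sq_le (by nlinarith [sq_nonneg ‖p.2‖])

theorem snd_le_nE (p : ℂ × ℂ) : ‖p.2‖ ≤ nE p :=
  Real.le_sqrt_of_sq_le (by nlinarith [sq_nonneg ‖p.1‖])

theorem norm_le_nE (p : ℂ × ℂ) : ‖p‖ ≤ nE p := by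
  rw [Prod.norm_def]
  exact max_le (fst_le_nE p) (snd_le_nE p)

theorem nE_pos {p : ℂ × ℂ} (hp : p ≠ 0) : 0 < nE p :=
  (norm_pos_iff.2 hp).trans_le (norm_le_nE p)

theorem nE_smul (a : ℂ) (p : ℂ × ℂ) : nE (a • p) = ‖a‖ * nE p := by
  unfold nE
  rw [Prod.smul_fst, Prod.smul_snd, smul_eq_mul, smul_eq_mul, norm_mul, norm_mul, mul_pow, mul_pow,
    ← mul_add, Real.sqrt_mul (by positivity), Real.sqrt_sq (norm_nonneg _)]

theorem nE_cont : Continuous nE := by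
  unfold nE
  fun_prop

/-- hermitian product -/
noncomputable def ip (p q : ℂ × ℂ) : ℂ := conj p.1 * q.1 + conj p.2 * q.2

theorem lagrange (p q : ℂ × ℂ) : ‖ip p q‖ ^ 2 + ‖cr p q‖ ^ 2 = nE p ^ 2 * nE q ^ 2 := by
  rw [nE_sq, nE_sq]
  unfold ip cr
  simp only [← Complex.normSq_eq_norm_sq, Complex.normSq_apply]
  simp only [Complex.add_re, Complex.mul_re, Complex.conj_re, Complex.conj_im, Complex.add_im,
    Complex.mul_im, Complex.sub_re, Complex.sub_im]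
  ring

theorem ip_le (p q : ℂ × ℂ) : ‖ip p q‖ ≤ nE p * nE q := by
  refine abs_le_of_sq_le_sq' ?_ (mul_nonneg (nE_nonneg p) (nE_nonneg q)) |>.2
  rw [mul_pow, ← lagrange]
  nlinarith [sq_nonneg ‖cr p q‖]

theorem cr_le (p q : ℂ × ℂ) : ‖cr p q‖ ≤ nE p * nE q := by
  refine abs_le_of_sq_le_sq' ?_ (mul_nonneg (nE_nonneg p) (nE_nonneg q)) |>.2
  rw [mul_pow, ← lagrange]
  nlinarith [sq_nonneg ‖ip p q‖]

/-- decomposition of `u` along `v` and the orthogonal vector -/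
theorem decomp (v u : ℂ × ℂ) :
    ((nE v ^ 2 : ℝ) : ℂ) • u = ip v u • v + cr v u • ((-conj v.2, conj v.1) : ℂ × ℂ) := by
  have h1 : ((nE v ^ 2 : ℝ) : ℂ) = v.1 * conj v.1 + v.2 * conj v.2 := by
    rw [nE_sq, Complex.mul_conj, Complex.mul_conj, Complex.normSq_eq_norm_sq,
      Complex.normSq_eq_norm_sq]
    push_cast
    ring
  rw [h1]
  unfold ip cr
  refine Prod.ext ?_ ?_
  · simp only [Prod.smul_fst, Prod.fst_add, smul_eq_mul]
    ring
  · simp only [Prod.smul_snd, Prod.snd_add, smul_eq_mul]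
    ring

/-- 2 by 2 matrices `(a b; c e)`, as pairs of columns `((a, c), (b, e))` -/
abbrev Mt : Type := (ℂ × ℂ) × (ℂ × ℂ)

/-- determinant -/
def dt (m : Mt) : ℂ := m.1.1 * m.2.2 - m.2.1 * m.1.2

/-- application of a matrix -/
def ap (m : Mt) (p : ℂ × ℂ) : ℂ × ℂ :=
  (m.1.1 * p.1 + m.2.1 * p.2, m.1.2 * p.1 + m.2.2 * p.2)

theorem ap_smul (m : Mt) (a : ℂ) (p : ℂ × ℂ) : ap m (a • p) = a • ap m p := by
  unfold ap
  refine Prod.ext ?_ ?_ <;>
  · simp only [Prod.smul_fst, Prod.smul_snd, smul_eq_mul]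
    ring

theorem ap_add (m : Mt) (p q : ℂ × ℂ) : ap m (p + q) = ap m p + ap m q := by
  unfold ap
  refine Prod.ext ?_ ?_ <;>
  · simp only [Prod.fst_add, Prod.snd_add]
    ring

theorem ap_cont (m : Mt) : Continuous (ap m) := by
  unfold ap
  fun_prop

theorem cr_ap (m : Mt) (p q : ℂ × ℂ) : cr (ap m p) (ap m q) = dt m * cr p q := by
  unfold cr ap dt
  ring

theorem le_norm (m : Mt) : ‖m.1.1‖ ≤ ‖m‖ ∧ ‖m.2.1‖ ≤ ‖m‖ ∧ ‖m.1.2‖ ≤ ‖m‖ ∧ ‖m.2.2‖ ≤ ‖m‖ :=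
  ⟨(norm_fst_le m.1).trans (norm_fst_le m), (norm_fst_le m.2).trans (norm_snd_le m),
    (norm_snd_le m.1).trans (norm_fst_le m), (norm_snd_le m.2).trans (norm_snd_le m)⟩

theorem ap_le (m : Mt) (p : ℂ × ℂ) : ‖ap m p‖ ≤ 2 * ‖m‖ * nE p := by
  obtain ⟨h1, h2, h3, h4⟩ := le_norm m
  have h5 := fst_le_nE p
  have h6 := snd_le_nE p
  have h7 := nE_nonneg p
  rw [Prod.norm_def]
  refine max_le ?_ ?_
  · refine (norm_add_le _ _).trans ?_
    rw [norm_mul, norm_mul]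
    have := mul_le_mul h1 h5 (norm_nonneg _) (norm_nonneg _)
    have := mul_le_mul h2 h6 (norm_nonneg _) (norm_nonneg _)
    linarith
  · refine (norm_add_le _ _).trans ?_
    rw [norm_mul, norm_mul]
    have := mul_le_mul h3 h5 (norm_nonneg _) (norm_nonneg _)
    have := mul_le_mul h4 h6 (norm_nonneg _) (norm_nonneg _)
    linarith

theorem ap_dec (m : Mt) (u v : ℂ × ℂ) :
    nE v ^ 2 * ‖ap m u‖ ≤ nE v * nE u * ‖ap m v‖ + 2 * ‖m‖ * nE v * ‖cr v u‖ := by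
  have h1 : ((nE v ^ 2 : ℝ) : ℂ) • ap m u =
      ip v u • ap m v + cr v u • ap m (-conj v.2, conj v.1) := by
    rw [← ap_smul, decomp, ap_add, ap_smul, ap_smul]
  have h2 := congrArg norm h1
  rw [norm_smul, Complex.norm_real, Real.norm_eq_abs, abs_of_nonneg (sq_nonneg _)] at h2
  rw [h2]
  refine (norm_add_le _ _).trans ?_
  rw [norm_smul, norm_smul]
  have h3 := ip_le v u
  have h4 : ‖ap m (-conj v.2, conj v.1)‖ ≤ 2 * ‖m‖ * nE v := by
    refine (ap_le m _).trans (le_of_eq ?_)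
    congr 1
    unfold nE
    simp only [norm_neg, RCLike.norm_conj]
    rw [add_comm]
  have h5 := mul_le_mul_of_nonneg_right h3 (norm_nonneg (ap m v))
  have h6 := mul_le_mul_of_nonneg_left h4 (norm_nonneg (cr v u))
  linarith

/-- the Moebius map -/
noncomputable def mo (m : Mt) : Sph → Sph := mob m.1.1 m.2.1 m.1.2 m.2.2

theorem mo_pr {m : Mt} (h : dt m ≠ 0) {p : ℂ × ℂ} (hp : p ≠ 0) : mo m (pr p) = pr (ap m p) :=
  mob_pr h hp

theorem ap_ne {m : Mt} (h : dt m ≠ 0) {p : ℂ × ℂ} (hp : p ≠ 0) : ap m p ≠ 0 := lin_ne h hp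

/-- Scale invariant functions of the homogeneous coordinates. -/
theorem cont_of_hom {φ : ℂ × ℂ → ℝ} (hφ : ∀ p, p ≠ 0 → ContinuousAt φ p)
    (hinv : ∀ (a : ℂ) (p : ℂ × ℂ), a ≠ 0 → p ≠ 0 → φ (a • p) = φ p) :
    Continuous fun z : Sph => φ (hc z) := by
  rw [OnePoint.continuous_iff]
  constructor
  · rw [coclosedCompact_eq_cocompact, ← Metric.cobounded_eq_cocompact]
    have h0 : ((1, 0) : ℂ × ℂ) ≠ 0 := inf_ne 0
    have h1 : Tendsto (fun z : ℂ => φ (1, z⁻¹)) (Bornology.cobounded ℂ) (𝓝 (φ (1, 0))) := by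
      have h2 : ContinuousAt (fun w : ℂ => φ (1, w)) 0 :=
        ContinuousAt.comp (f := fun w : ℂ => ((1, w) : ℂ × ℂ)) (g := φ) (x := (0 : ℂ))
          (hφ _ h0) (Continuous.prodMk_right 1).continuousAt
      exact Tendsto.comp (g := fun w : ℂ => φ (1, w)) h2.tendsto tendsto_inv₀_cobounded
    refine h1.congr' ?_
    filter_upwards [Bornology.eventually_ne_cobounded (0 : ℂ)] with z hz
    show φ (1, z⁻¹) = φ (z, 1)
    rw [← hinv z (1, z⁻¹) hz (inf_ne _)]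
    congr 1
    refine Prod.ext ?_ ?_
    · simp
    · simp [hz]
  · rw [continuous_iff_continuousAt]
    intro z
    exact ContinuousAt.comp (f := fun w : ℂ => ((w, 1) : ℂ × ℂ)) (g := φ) (x := z)
      (hφ _ (coe_ne z)) (Continuous.prodMk_left 1).continuousAt

/-- A scale invariant function can be computed with any homogeneous coordinates. -/
theorem hom_hc {φ : ℂ × ℂ → ℝ}
    (hinv : ∀ (a : ℂ) (p : ℂ × ℂ), a ≠ 0 → p ≠ 0 → φ (a • p) = φ p) {p : ℂ × ℂ} (hp : p ≠ 0) :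
    φ (hc (pr p)) = φ p := by
  have h1 := pr_hc (pr p)
  obtain ⟨a, ha, h2⟩ := (Pool.Agent.H790R3.RB.cr_eq_zero_iff h1.2 hp).1
    ((pr_eq_iff h1.2 hp).1 h1.1)
  rw [h2, hinv a p ha hp]

/-- chordal distance -/
noncomputable def chd (z w : Sph) : ℝ := ‖cr (hc z) (hc w)‖ / (nE (hc z) * nE (hc w))

theorem dl_inv (q : ℂ × ℂ) (a : ℂ) (p : ℂ × ℂ) (ha : a ≠ 0) (_hp : p ≠ 0) :
    ‖cr (a • p) q‖ / (nE (a • p) * nE q) = ‖cr p q‖ / (nE p * nE q) := by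
  rw [Pool.Agent.H790R3.RB.cr_smul_left, nE_smul, norm_mul, mul_assoc]
  exact mul_div_mul_left _ _ (norm_ne_zero_iff.2 ha)

theorem dl_inv' (q : ℂ × ℂ) (a : ℂ) (p : ℂ × ℂ) (ha : a ≠ 0) (_hp : p ≠ 0) :
    ‖cr q (a • p)‖ / (nE q * nE (a • p)) = ‖cr q p‖ / (nE q * nE p) := by
  rw [Pool.Agent.H790R3.RB.cr_smul_right, nE_smul, norm_mul, mul_left_comm (nE q)]
  exact mul_div_mul_left _ _ (norm_ne_zero_iff.2 ha)

theorem chd_pr {p q : ℂ × ℂ} (hp : p ≠ 0) (hq : q ≠ 0) :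
    chd (pr p) (pr q) = ‖cr p q‖ / (nE p * nE q) := by
  unfold chd
  rw [hom_hc (φ := fun p => ‖cr p (hc (pr q))‖ / (nE p * nE (hc (pr q)))) (dl_inv _) hp]
  exact hom_hc (φ := fun q => ‖cr p q‖ / (nE p * nE q)) (dl_inv' _) hq

theorem chd_cont (w : Sph) : Continuous fun z => chd z w := by
  refine cont_of_hom (φ := fun p => ‖cr p (hc w)‖ / (nE p * nE (hc w))) (fun p hp => ?_)
    (dl_inv _)
  have h1 : Continuous fun p : ℂ × ℂ => ‖cr p (hc w)‖ := by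
    unfold cr
    fun_prop
  exact h1.continuousAt.div (nE_cont.continuousAt.mul continuousAt_const)
    (mul_pos (nE_pos hp) (nE_pos (pr_hc w).2)).ne'

theorem chd_le_one (z w : Sph) : chd z w ≤ 1 := by
  unfold chd
  rw [div_le_one (mul_pos (nE_pos (pr_hc z).2) (nE_pos (pr_hc w).2))]
  exact cr_le _ _

theorem chd_nonneg (z w : Sph) : 0 ≤ chd z w :=
  div_nonneg (norm_nonneg _) (mul_nonneg (nE_nonneg _) (nE_nonneg _))

/-- the size of the image vector -/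
noncomputable def vf (m : Mt) (z : Sph) : ℝ := ‖ap m (hc z)‖ / nE (hc z)

theorem vf_inv (m : Mt) (a : ℂ) (p : ℂ × ℂ) (ha : a ≠ 0) (_hp : p ≠ 0) :
    ‖ap m (a • p)‖ / nE (a • p) = ‖ap m p‖ / nE p := by
  rw [ap_smul, nE_smul, norm_smul]
  exact mul_div_mul_left _ _ (norm_ne_zero_iff.2 ha)

theorem vf_pr (m : Mt) {p : ℂ × ℂ} (hp : p ≠ 0) : vf m (pr p) = ‖ap m p‖ / nE p :=
  hom_hc (φ := fun p => ‖ap m p‖ / nE p) (vf_inv m) hp

theorem vf_cont (m : Mt) : Continuous (vf m) := by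
  refine cont_of_hom (φ := fun p => ‖ap m p‖ / nE p) (fun p hp => ?_) (vf_inv m)
  exact (ap_cont m).norm.continuousAt.div nE_cont.continuousAt (nE_pos hp).ne'

theorem vf_lip (m : Mt) (u v : Sph) : vf m u ≤ vf m v + 2 * ‖m‖ * chd v u := by
  have hu := nE_pos (pr_hc u).2
  have hv := nE_pos (pr_hc v).2
  unfold vf chd
  set p := hc u
  set q := hc v
  have h1 := ap_dec m p q
  rw [div_le_iff₀ hu]
  have h2 : (‖ap m q‖ / nE q + 2 * ‖m‖ * (‖cr q p‖ / (nE q * nE p))) * nE p =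
      (nE q * nE p * ‖ap m q‖ + 2 * ‖m‖ * nE q * ‖cr q p‖) / nE q ^ 2 := by
    field_simp
  rw [h2, le_div_iff₀ (by positivity)]
  linarith

/-- The image of the set where `vf` is large is close to any large column. -/
theorem image_close {m : Mt} (h : dt m ≠ 0) {ε s : ℝ} (hs : 0 < s)
    (hε : ‖dt m‖ ≤ ε * ‖m‖ ^ 2) {e : ℂ × ℂ} (he : nE e = 1) (hem : ‖ap m e‖ = ‖m‖) {z : Sph}
    (hz : s * ‖m‖ < vf m z) : chd (mo m z) (pr (ap m e)) ≤ ε / s := by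
  have he0 : e ≠ 0 := by
    rintro rfl
    unfold nE at he
    simp at he
  obtain ⟨p, hp, rfl⟩ := exists_pr z
  have hm0 : m ≠ 0 := by
    rintro rfl
    apply h
    simp [dt]
  have hm : 0 < ‖m‖ := norm_pos_iff.2 hm0
  rw [vf_pr m hp, lt_div_iff₀ (nE_pos hp)] at hz
  rw [mo_pr h hp, chd_pr (ap_ne h hp) (ap_ne h he0), cr_ap, norm_mul]
  have h1 := norm_le_nE (ap m p)
  have h2 := norm_le_nE (ap m e)
  rw [hem] at h2
  have h3 := cr_le p e
  rw [he, mul_one] at h3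
  have h4 : 0 < nE p := nE_pos hp
  have h5 : 0 < s * ‖m‖ * nE p := by positivity
  rw [div_le_div_iff₀ (mul_pos (nE_pos (ap_ne h hp)) (nE_pos (ap_ne h he0))) hs]
  have hε0 : 0 ≤ ε := by
    by_contra hcon
    push Not at hcon
    have : ε * ‖m‖ ^ 2 < 0 := mul_neg_of_neg_of_pos hcon (by positivity)
    linarith [norm_nonneg (dt m)]
  calc ‖dt m‖ * ‖cr p e‖ * s ≤ (ε * ‖m‖ ^ 2) * nE p * s := by
        gcongr
    _ = ε * ((s * ‖m‖ * nE p) * ‖m‖) := by ring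
    _ ≤ ε * (nE (ap m p) * nE (ap m e)) := by
        refine mul_le_mul_of_nonneg_left ?_ hε0
        exact mul_le_mul (hz.le.trans h1) h2 (norm_nonneg _) (nE_nonneg _)

end Pool.Agent.Helper39.MB
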