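import Mathlib
import Pool.Agent.Helper39.MB.Geo

/-! A rational map of degree `d` has at most `3 d` critical values. -/

set_option autoImplicit false

open Topology Filter Metric Set Polynomial
open scoped OnePoint
open Pool.Agent.H790R3.RB (CV hF ND sp pol hc)
open Pool.Agent.H790R3.RB.SP (pr_zero pr_ne pr_eq_iff pr_hc sp_pr sp_cont)
open Pool.Agent.H790R3.RB.PQ (hF_one hF_inf part1 sp_eval pol_natDegree)
open Pool.Agent.R239.Fat

namespace Pool.Agent.Helper39.MB

theorem crit_card {d : ℕ} (hd : 1 ≤ d) {x : CV d} (hx : ND x) :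
    ∃ E : Finset Sph, E.card ≤ 3 * d ∧ ∀ y, ¬ LocInj (sp x) y → sp x y ∈ E := by
  classical
  obtain ⟨hcop, hmax⟩ := part1 hd x hx
  set P := pol x 0 with hP
  set Q := pol x 1 with hQ
  have hPd : P.natDegree ≤ d := pol_natDegree x 0
  have hQd : Q.natDegree ≤ d := pol_natDegree x 1
  have hw := wronskian_ne hcop (by omega)
  have hQ0 : Q ≠ 0 := by
    intro h
    rw [h] at hcop hmax
    have := natDegree_eq_zero_of_isUnit (isCoprime_zero_right.1 hcop)
    rw [this] at hmax
    simp at hmax
    omega
  refine ⟨(insert ∞ ((Q.roots.toFinset ∪ (derivative P * Q - P * derivative Q).roots.toFinset).image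
    fun z : ℂ => (z : Sph))).image (sp x), ?_, fun y hy => Finset.mem_image_of_mem _ ?_⟩
  · have h1 : (derivative P * Q - P * derivative Q).natDegree ≤ 2 * d - 1 := by
      have h2 := natDegree_derivative_le P
      have h3 := natDegree_derivative_le Q
      refine (natDegree_sub_le _ _).trans (max_le ?_ ?_)
      · refine natDegree_mul_le.trans ?_
        omega
      · refine natDegree_mul_le.trans ?_
        omega
    have h2 : Q.roots.toFinset.card ≤ d :=
      (Multiset.toFinset_card_le _).trans ((card_roots' Q).trans hQd)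
    have h3 : (derivative P * Q - P * derivative Q).roots.toFinset.card ≤ 2 * d - 1 :=
      (Multiset.toFinset_card_le _).trans ((card_roots' _).trans h1)
    refine Finset.card_image_le.trans ((Finset.card_insert_le _ _).trans ?_)
    have h4 := Finset.card_union_le Q.roots.toFinset
      (derivative P * Q - P * derivative Q).roots.toFinset
    have h5 : ((Q.roots.toFinset ∪ (derivative P * Q - P * derivative Q).roots.toFinset).image
      fun z : ℂ => (z : Sph)).card ≤ _ := Finset.card_image_le
    omega
  induction y using OnePoint.rec with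
  | infty => exact Finset.mem_insert_self _ _
  | coe z =>
    refine Finset.mem_insert_of_mem (Finset.mem_image_of_mem _ ?_)
    by_contra hcon
    rw [Finset.mem_union, Multiset.mem_toFinset, Multiset.mem_toFinset, mem_roots hQ0,
      mem_roots hw, not_or] at hcon
    obtain ⟨h1, h2⟩ := hcon
    have h1' : Q.eval z ≠ 0 := h1
    apply hy
    set φ : ℂ → ℂ := fun w => P.eval w / Q.eval w with hφ
    have hφd : HasStrictDerivAt φ
        (((derivative P).eval z * Q.eval z - P.eval z * (derivative Q).eval z) / Q.eval z ^ 2) z :=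
      (P.hasStrictDerivAt z).div (Q.hasStrictDerivAt z) h1'
    have hne : ((derivative P).eval z * Q.eval z - P.eval z * (derivative Q).eval z) /
        Q.eval z ^ 2 ≠ 0 := by
      refine div_ne_zero ?_ (pow_ne_zero 2 h1')
      intro h3
      apply h2
      rw [IsRoot, eval_sub, eval_mul, eval_mul]
      exact h3
    have hs' := hφd.hasStrictFDerivAt_equiv hne
    set V := (hs'.toOpenPartialHomeomorph _).source ∩ {w | Q.eval w ≠ 0} with hV
    have hVn : V ∈ 𝓝 z := inter_mem ((hs'.toOpenPartialHomeomorph _).open_source.mem_nhds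
      hs'.mem_toOpenPartialHomeomorph_source) (Q.continuous.continuousAt.eventually_ne h1')
    refine ⟨_, nhds_coe hVn, ?_⟩
    rintro _ ⟨w, hw, rfl⟩ _ ⟨w', hw', rfl⟩ hww
    simp only at hww
    rw [sp_eval x w hw.2, sp_eval x w' hw'.2] at hww
    have h3 : φ w = φ w' := OnePoint.coe_injective hww
    rw [(hs'.toOpenPartialHomeomorph _).injOn hw.1 hw'.1 h3]

end Pool.Agent.Helper39.MB
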