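import Mathlib
import Pool.Agent.Helper39.MB.Geo

/-! Rational maps are Lipschitz for the chordal distance. -/

set_option autoImplicit false

open Topology Filter Metric Set Polynomial
open scoped OnePoint ComplexConjugate
open Pool.Agent.H790R3.RB (CV hF cr ND sp pr hc pol hF_smul)
open Pool.Agent.H790R3.RB.SP (pr_zero pr_ne pr_hc sp_pr sp_cont pr_eq_iff continuousAt_pr)
open Pool.Agent.R239.Fat

namespace Pool.Agent.Helper39.MB

theorem cr_sub_right (p q r : ℂ × ℂ) : cr p (q - r) = cr p q - cr p r := by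
  unfold cr
  simp only [Prod.fst_sub, Prod.snd_sub]
  ring

theorem nE_le (p : ℂ × ℂ) : nE p ≤ 2 * ‖p‖ := by
  have h1 := norm_fst_le p
  have h2 := norm_snd_le p
  unfold nE
  rw [Real.sqrt_le_left (by positivity)]
  nlinarith [norm_nonneg p.1, norm_nonneg p.2, norm_nonneg p]

theorem nE_conj (p : ℂ × ℂ) : nE (-conj p.2, conj p.1) = nE p := by
  unfold nE
  simp only [norm_neg, RCLike.norm_conj]
  rw [add_comm]

/-- the unit vector -/
theorem exists_unit (z : Sph) : ∃ p : ℂ × ℂ, nE p = 1 ∧ pr p = z := by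
  obtain ⟨h1, h2⟩ := pr_hc z
  have h3 := nE_pos h2
  have h4 : ((nE (hc z) : ℝ) : ℂ)⁻¹ ≠ 0 := inv_ne_zero (by exact_mod_cast h3.ne')
  refine ⟨((nE (hc z) : ℝ) : ℂ)⁻¹ • hc z, ?_, ?_⟩
  · rw [nE_smul, norm_inv, Complex.norm_real, Real.norm_eq_abs, abs_of_pos h3]
    field_simp
  · conv_rhs => rw [← h1]
    rw [pr_eq_iff (smul_ne_zero h4 h2) h2, Pool.Agent.H790R3.RB.cr_smul_left,
      Pool.Agent.H790R3.RB.cr_self, mul_zero]

theorem ne_of_unit {p : ℂ × ℂ} (h : nE p = 1) : p ≠ 0 := by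
  rintro rfl
  unfold nE at h
  simp at h

theorem exists_lip {d : ℕ} {x : CV d} (hx : ND x) :
    ∃ L : ℝ, 0 < L ∧ ∀ z w, chd (sp x z) (sp x w) ≤ L * chd z w := by
  have hcd : ContDiff ℂ 1 (hF x) :=
    (Pool.Agent.H790R3.RB.hF_contDiff d 1).comp (contDiff_const.prodMk contDiff_id)
  obtain ⟨A, hA⟩ := (hcd.locallyLipschitz.locallyLipschitzOn
    (s := closedBall 0 1)).exists_lipschitzOnWith_of_compact (isCompact_closedBall 0 1)
  -- lower bound
  obtain ⟨c, hc0, hcb⟩ : ∃ c : ℝ, 0 < c ∧ ∀ p : ℂ × ℂ, nE p = 1 → c ≤ ‖hF x p‖ := by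
    have hS : IsCompact {p : ℂ × ℂ | nE p = 1} := by
      refine Metric.isCompact_of_isClosed_isBounded (isClosed_eq nE_cont continuous_const) ?_
      refine isBounded_iff_forall_norm_le.2 ⟨1, fun p hp => ?_⟩
      have : nE p = 1 := hp
      rw [← this]
      exact norm_le_nE p
    have hne : {p : ℂ × ℂ | nE p = 1}.Nonempty := ⟨(1, 0), by show nE _ = 1; unfold nE; simp⟩
    obtain ⟨q, hq, hq2⟩ := hS.exists_isMinOn hne (hcd.continuous.norm.continuousOn)
    refine ⟨‖hF x q‖, norm_pos_iff.2 fun h => ne_of_unit hq (hx _ h), fun p hp => ?_⟩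
    exact hq2 hp
  refine ⟨(2 * A + 1) / c, by positivity, fun z w => ?_⟩
  obtain ⟨p, hp, rfl⟩ := exists_unit z
  obtain ⟨q, hq, rfl⟩ := exists_unit w
  have hp0 := ne_of_unit hp
  have hq0 := ne_of_unit hq
  have hFp : hF x p ≠ 0 := fun h => hp0 (hx _ h)
  have hFq : hF x q ≠ 0 := fun h => hq0 (hx _ h)
  rw [sp_pr hx hp0, sp_pr hx hq0, chd_pr hFp hFq, chd_pr hp0 hq0, hp, hq, mul_one, div_one]
  -- decomposition of `q`
  have h1 := decomp p q
  rw [hp] at h1
  have h1' : q = ip p q • p + cr p q • ((-conj p.2, conj p.1) : ℂ × ℂ) := by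
    rw [← h1]
    simp
  have h2 : cr (hF x p) (hF x q) = cr (hF x p) (hF x q - hF x (ip p q • p)) := by
    rw [cr_sub_right, hF_smul, Pool.Agent.H790R3.RB.cr_smul_right,
      Pool.Agent.H790R3.RB.cr_self, mul_zero, sub_zero]
  have hqb : q ∈ closedBall (0 : ℂ × ℂ) 1 := by
    rw [mem_closedBall, dist_zero_right, ← hq]
    exact norm_le_nE q
  have hpb : ip p q • p ∈ closedBall (0 : ℂ × ℂ) 1 := by
    rw [mem_closedBall, dist_zero_right, norm_smul]
    have h3 := ip_le p q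
    rw [hp, hq, mul_one] at h3
    have h4 := norm_le_nE p
    rw [hp] at h4
    nlinarith [norm_nonneg p, norm_nonneg (ip p q)]
  have h3 : ‖hF x q - hF x (ip p q • p)‖ ≤ A * ‖cr p q‖ := by
    have h4 := hA.dist_le_mul q hqb _ hpb
    rw [dist_eq_norm, dist_eq_norm] at h4
    refine h4.trans (mul_le_mul_of_nonneg_left ?_ A.2)
    have h5 : q - ip p q • p = cr p q • ((-conj p.2, conj p.1) : ℂ × ℂ) := by
      rw [sub_eq_iff_eq_add, add_comm]
      exact h1'
    rw [h5, norm_smul]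
    have h6 : ‖((-conj p.2, conj p.1) : ℂ × ℂ)‖ ≤ 1 := by
      refine (norm_le_nE _).trans ?_
      rw [nE_conj, hp]
    nlinarith [norm_nonneg (cr p q)]
  have h4 : ‖cr (hF x p) (hF x q)‖ ≤ nE (hF x p) * (2 * (A * ‖cr p q‖)) := by
    rw [h2]
    refine (cr_le _ _).trans (mul_le_mul_of_nonneg_left ?_ (nE_nonneg _))
    exact (nE_le _).trans (by linarith)
  have h5 := nE_pos hFp
  have h6 := nE_pos hFq
  have h7 : c ≤ nE (hF x q) := (hcb q hq).trans (norm_le_nE _)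
  have h8 : (0 : ℝ) ≤ A := A.2
  have h9 := norm_nonneg (cr p q)
  rw [div_le_iff₀ (mul_pos h5 h6)]
  calc ‖cr (hF x p) (hF x q)‖ ≤ nE (hF x p) * (2 * (A * ‖cr p q‖)) := h4
    _ ≤ nE (hF x p) * ((2 * A + 1) * ‖cr p q‖) := by
        refine mul_le_mul_of_nonneg_left ?_ h5.le
        nlinarith
    _ = (2 * A + 1) / c * ‖cr p q‖ * (nE (hF x p) * c) := by
        field_simp
    _ ≤ (2 * A + 1) / c * ‖cr p q‖ * (nE (hF x p) * nE (hF x q)) := by
        gcongr

end Pool.Agent.Helper39.MB
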