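import Mathlib
import Pool.Agent.Helper39.MB.Geo

/-! Volumes of sets of nearly singular matrices. -/

set_option autoImplicit false

open Topology Filter Metric Set MeasureTheory
open scoped OnePoint ComplexConjugate ENNReal NNReal
open Pool.Agent.H790R3.RB (CV hF cr ND sp pr hc pol hF_smul)
open Pool.Agent.R239.Fat

namespace Pool.Agent.Helper39.MB

/-- nearly singular matrices in the unit ball -/
def Nr (ε : ℝ) : Set Mt := {m | ‖m‖ ≤ 1 ∧ dt m ≠ 0 ∧ ‖dt m‖ ≤ ε * ‖m‖ ^ 2}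

theorem dt_cont : Continuous dt := by
  unfold dt
  fun_prop

theorem nr_meas (ε : ℝ) : MeasurableSet (Nr ε) := by
  have h1 : Nr ε = {m | ‖m‖ ≤ 1} ∩ ({m | dt m ≠ 0} ∩ {m | ‖dt m‖ ≤ ε * ‖m‖ ^ 2}) := rfl
  rw [h1]
  refine (isClosed_le continuous_norm continuous_const).measurableSet.inter
    (MeasurableSet.inter ?_ ?_)
  · exact (isOpen_ne_fun dt_cont continuous_const).measurableSet
  · exact (isClosed_le dt_cont.norm (continuous_const.mul (continuous_norm.pow 2))).measurableSet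

/-- the volume of a disc -/
theorem vol_disc (z : ℂ) {r : ℝ} (hr : 0 ≤ r) :
    volume (closedBall z r) = ENNReal.ofReal (Real.pi * r ^ 2) := by
  rw [Complex.volume_closedBall, mul_comm, ENNReal.ofReal_mul Real.pi_pos.le,
    ENNReal.ofReal_pow hr]
  congr 1
  rw [← NNReal.coe_real_pi, ENNReal.ofReal_coe_nnreal]

/-- one linear condition on the free entry of the large row -/
theorem row_set {a : ℂ} {y : ℂ × ℂ} (hy : y ≠ 0) {κ : ℝ} (hκ : 0 ≤ κ) :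
    ∃ z : ℂ, {b : ℂ | ‖b‖ ≤ ‖a‖ ∧ ‖a * y.1 + b * y.2‖ ≤ κ * ‖a‖ * nE y} ⊆
      closedBall z (4 * κ * ‖a‖) := by
  have hν := nE_pos hy
  by_cases h : nE y / 4 ≤ ‖y.2‖
  · have hy2 : 0 < ‖y.2‖ := by linarith
    have hy2' : y.2 ≠ 0 := norm_pos_iff.1 hy2
    refine ⟨-(a * y.1 / y.2), fun b hb => ?_⟩
    rw [mem_closedBall, dist_eq_norm]
    have h1 : b - -(a * y.1 / y.2) = (a * y.1 + b * y.2) / y.2 := by
      field_simp
      ring
    rw [h1, norm_div, div_le_iff₀ hy2]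
    refine hb.2.trans ?_
    have h2 : 0 ≤ κ * ‖a‖ := by positivity
    nlinarith
  · push Not at h
    refine ⟨0, fun b hb => ?_⟩
    obtain ⟨h1, h2⟩ := hb
    rw [mem_closedBall, dist_zero_right]
    have h3 : 9 / 10 * nE y ≤ ‖y.1‖ := by
      have h4 := nE_sq y
      by_contra hcon
      push Not at hcon
      have h5 := norm_nonneg y.1
      have h6 := norm_nonneg y.2
      nlinarith
    have h4 : ‖a‖ * ‖y.1‖ - ‖b‖ * ‖y.2‖ ≤ ‖a * y.1 + b * y.2‖ := by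
      rw [← norm_mul, ← norm_mul]
      have h7 := norm_sub_norm_le (a * y.1) (-(b * y.2))
      rw [norm_neg, sub_neg_eq_add] at h7
      exact h7
    have h5 : ‖b‖ * ‖y.2‖ ≤ ‖a‖ * (nE y / 4) :=
      mul_le_mul h1 h.le (norm_nonneg _) (norm_nonneg _)
    have h6 : ‖a‖ * (9 / 10 * nE y) ≤ ‖a‖ * ‖y.1‖ := mul_le_mul_of_nonneg_left h3 (norm_nonneg _)
    have h7 : ‖a‖ * nE y * (13 / 20) ≤ κ * (‖a‖ * nE y) := by nlinarith
    rcases eq_or_lt_of_le (norm_nonneg a) with ha | ha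
    · rw [← ha] at h1 ⊢
      simpa using h1
    · have h8 : 13 / 20 ≤ κ := by
        have h9 : 0 < ‖a‖ * nE y := by positivity
        nlinarith
      nlinarith

theorem slice_vol {a c : ℂ} (ha : a ≠ 0) {y : ℂ × ℂ} (hy : y ≠ 0) {κ ε : ℝ} (hκ : 0 ≤ κ)
    (hε : 0 ≤ ε) :
    volume {v : ℂ × ℂ | ‖v.1‖ ≤ ‖a‖ ∧ ‖a * v.2 - v.1 * c‖ ≤ ε * ‖a‖ ^ 2 ∧
      ‖a * y.1 + v.1 * y.2‖ ≤ κ * ‖a‖ * nE y} ≤
      ENNReal.ofReal (16 * Real.pi ^ 2 * κ ^ 2 * ε ^ 2 * ‖a‖ ^ 4) := by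
  obtain ⟨z, hz⟩ := row_set (a := a) hy hκ
  have ha0 := norm_pos_iff.2 ha
  set S : Set (ℂ × ℂ) := {v | v.1 ∈ closedBall z (4 * κ * ‖a‖) ∧
    ‖v.2 - v.1 * c / a‖ ≤ ε * ‖a‖} with hS
  have hsub : {v : ℂ × ℂ | ‖v.1‖ ≤ ‖a‖ ∧ ‖a * v.2 - v.1 * c‖ ≤ ε * ‖a‖ ^ 2 ∧
      ‖a * y.1 + v.1 * y.2‖ ≤ κ * ‖a‖ * nE y} ⊆ S := by
    rintro v ⟨h1, h2, h3⟩
    refine ⟨hz ⟨h1, h3⟩, ?_⟩
    have h4 : v.2 - v.1 * c / a = (a * v.2 - v.1 * c) / a := by
      field_simp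
    rw [h4, norm_div, div_le_iff₀ ha0]
    refine h2.trans (le_of_eq ?_)
    ring
  refine (measure_mono hsub).trans ?_
  have hSm : MeasurableSet S := by
    refine MeasurableSet.inter ?_ ?_
    · exact (isClosed_closedBall.preimage continuous_fst).measurableSet
    · have h1 : Continuous fun v : ℂ × ℂ => ‖v.2 - v.1 * c / a‖ := by fun_prop
      exact (isClosed_le h1 continuous_const).measurableSet
  rw [Measure.volume_eq_prod, Measure.prod_apply hSm]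
  have h1 : ∀ b : ℂ, volume (Prod.mk b ⁻¹' S) ≤
      (closedBall z (4 * κ * ‖a‖)).indicator
        (fun _ => ENNReal.ofReal (Real.pi * (ε * ‖a‖) ^ 2)) b := by
    intro b
    by_cases hb : b ∈ closedBall z (4 * κ * ‖a‖)
    · rw [indicator_of_mem hb, ← vol_disc (b * c / a) (by positivity)]
      refine measure_mono fun e he => ?_
      rw [mem_closedBall, dist_eq_norm]
      exact he.2
    · rw [indicator_of_notMem hb]
      have h2 : Prod.mk b ⁻¹' S = ∅ := by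
        ext e
        simp only [mem_preimage, mem_empty_iff_false, iff_false]
        intro he
        exact hb he.1
      rw [h2, measure_empty]
  refine (lintegral_mono h1).trans ?_
  rw [lintegral_indicator_const isClosed_closedBall.measurableSet, vol_disc z (by positivity),
    ← ENNReal.ofReal_mul (by positivity)]
  refine ENNReal.ofReal_le_ofReal (le_of_eq ?_)
  ring

/-- slices over the first column -/
theorem col_slice {u : ℂ × ℂ} (hu : u ≠ 0) (hu1 : ‖u‖ ≤ 1) {y : ℂ × ℂ} (hy : y ≠ 0) {κ ε : ℝ}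
    (hκ : 0 ≤ κ) (hε : 0 ≤ ε) :
    volume {v : ℂ × ℂ | ((u, v) : Mt) ∈ Nr ε ∧ ‖u‖ = ‖((u, v) : Mt)‖ ∧
      ‖ap (u, v) y‖ ≤ κ * ‖((u, v) : Mt)‖ * nE y} ≤
      ENNReal.ofReal (16 * Real.pi ^ 2 * κ ^ 2 * ε ^ 2) := by
  have hu0 := norm_pos_iff.2 hu
  have hmono : ∀ t : ℝ, 0 ≤ t → t ≤ 1 → 16 * Real.pi ^ 2 * κ ^ 2 * ε ^ 2 * t ^ 4 ≤
      16 * Real.pi ^ 2 * κ ^ 2 * ε ^ 2 := by
    intro t h0 h1
    have : t ^ 4 ≤ 1 := pow_le_one₀ h0 h1
    have h2 : 0 ≤ 16 * Real.pi ^ 2 * κ ^ 2 * ε ^ 2 := by positivity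
    nlinarith
  have hv : ∀ v : ℂ × ℂ, ‖u‖ = ‖((u, v) : Mt)‖ → ‖v‖ ≤ ‖u‖ := by
    intro v h
    rw [h]
    exact norm_snd_le ((u, v) : Mt)
  rcases le_total ‖u.2‖ ‖u.1‖ with h | h
  · have hn : ‖u‖ = ‖u.1‖ := by rw [Prod.norm_def, max_eq_left h]
    have hne : u.1 ≠ 0 := by rw [← norm_pos_iff, ← hn]; exact hu0
    refine (measure_mono ?_).trans ((slice_vol (a := u.1) (c := u.2) hne hy hκ hε).trans
      (ENNReal.ofReal_le_ofReal (hmono _ (norm_nonneg _) (hn ▸ hu1))))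
    rintro v ⟨h1, h2, h3⟩
    refine ⟨?_, ?_, ?_⟩
    · rw [← hn]
      exact (norm_fst_le v).trans (hv v h2)
    · have h4 := h1.2.2
      rw [← h2, hn] at h4
      exact h4
    · rw [← h2, hn] at h3
      exact (norm_fst_le (ap (u, v) y)).trans h3
  · have hn : ‖u‖ = ‖u.2‖ := by rw [Prod.norm_def, max_eq_right h]
    have hne : u.2 ≠ 0 := by rw [← norm_pos_iff, ← hn]; exact hu0
    have hsw : MeasurePreserving (Prod.swap : ℂ × ℂ → ℂ × ℂ) volume volume :=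
      Measure.measurePreserving_swap
    have h5 := slice_vol (a := u.2) (c := u.1) hne hy hκ hε
    rw [← hsw.measure_preimage_equiv (f := MeasurableEquiv.prodComm)] at h5
    refine (measure_mono ?_).trans (h5.trans
      (ENNReal.ofReal_le_ofReal (hmono _ (norm_nonneg _) (hn ▸ hu1))))
    rintro v ⟨h1, h2, h3⟩
    refine ⟨?_, ?_, ?_⟩
    · show ‖v.2‖ ≤ ‖u.2‖
      rw [← hn]
      exact (norm_snd_le v).trans (hv v h2)
    · show ‖u.2 * v.1 - v.2 * u.1‖ ≤ ε * ‖u.2‖ ^ 2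
      have h4 := h1.2.2
      rw [← h2, hn] at h4
      have h6 : u.2 * v.1 - v.2 * u.1 = -dt (u, v) := by
        unfold dt
        ring
      rw [h6, norm_neg]
      exact h4
    · show ‖u.2 * y.1 + v.2 * y.2‖ ≤ κ * ‖u.2‖ * nE y
      rw [← h2, hn] at h3
      exact (norm_snd_le (ap (u, v) y)).trans h3

/-- the main volume bound, first column large -/
theorem col_one {F : ℂ × ℂ → ℂ × ℂ} (hF : Continuous F) (hF0 : ∀ u, u ≠ 0 → F u ≠ 0) {κ ε : ℝ}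
    (hκ : 0 ≤ κ) (hε : 0 ≤ ε) :
    volume {m : Mt | m ∈ Nr ε ∧ ‖m.1‖ = ‖m‖ ∧ ‖ap m (F m.1)‖ ≤ κ * ‖m‖ * nE (F m.1)} ≤
      ENNReal.ofReal (16 * Real.pi ^ 4 * κ ^ 2 * ε ^ 2) := by
  set S : Set Mt := {m : Mt | m ∈ Nr ε ∧ ‖m.1‖ = ‖m‖ ∧
    ‖ap m (F m.1)‖ ≤ κ * ‖m‖ * nE (F m.1)} with hS
  have hSm : MeasurableSet S := by
    refine (nr_meas ε).inter (MeasurableSet.inter ?_ ?_)
    · exact (isClosed_eq continuous_fst.norm continuous_norm).measurableSet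
    · have hF1 : Continuous fun m : Mt => F m.1 := hF.comp continuous_fst
      have h1 : Continuous fun m : Mt => ‖ap m (F m.1)‖ := by
        unfold ap
        fun_prop
      have h2 : Continuous fun m : Mt => κ * ‖m‖ * nE (F m.1) :=
        (continuous_const.mul continuous_norm).mul (nE_cont.comp hF1)
      exact (isClosed_le h1 h2).measurableSet
  rw [Measure.volume_eq_prod, Measure.prod_apply hSm]
  have h1 : ∀ u : ℂ × ℂ, volume (Prod.mk u ⁻¹' S) ≤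
      (closedBall (0 : ℂ × ℂ) 1).indicator
        (fun _ => ENNReal.ofReal (16 * Real.pi ^ 2 * κ ^ 2 * ε ^ 2)) u := by
    intro u
    by_cases hu : u ≠ 0 ∧ ‖u‖ ≤ 1
    · rw [indicator_of_mem (by rw [mem_closedBall, dist_zero_right]; exact hu.2)]
      exact col_slice hu.1 hu.2 (hF0 u hu.1) hκ hε
    · have h2 : Prod.mk u ⁻¹' S = ∅ := by
        ext v
        simp only [mem_preimage, mem_empty_iff_false, iff_false]
        rintro ⟨h3, h4, -⟩
        apply hu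
        have h5 : ‖u‖ = ‖((u, v) : Mt)‖ := h4
        refine ⟨?_, ?_⟩
        · intro h6
          rw [h6, norm_zero] at h5
          have h7 : ((0, v) : Mt) = 0 := norm_eq_zero.1 (h6 ▸ h5.symm)
          apply h3.2.1
          rw [h6, h7]
          simp [dt]
        · rw [h5]
          exact h3.1
      rw [h2, measure_empty]
      exact bot_le
  refine (lintegral_mono h1).trans ?_
  rw [lintegral_indicator_const isClosed_closedBall.measurableSet]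
  have h2 : volume (closedBall (0 : ℂ × ℂ) 1) = ENNReal.ofReal (Real.pi ^ 2) := by
    have h3 : closedBall (0 : ℂ × ℂ) 1 = closedBall (0 : ℂ) 1 ×ˢ closedBall (0 : ℂ) 1 :=
      (closedBall_prod_same (0 : ℂ) (0 : ℂ) 1).symm
    rw [h3, Measure.volume_eq_prod, Measure.prod_prod, vol_disc 0 zero_le_one,
      ← ENNReal.ofReal_mul (by positivity)]
    congr 1
    ring
  rw [h2, ← ENNReal.ofReal_mul (by positivity)]
  refine ENNReal.ofReal_le_ofReal (le_of_eq ?_)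
  ring

theorem norm_swap (m : Mt) : ‖m.swap‖ = ‖m‖ := by
  show max ‖m.2‖ ‖m.1‖ = max ‖m.1‖ ‖m.2‖
  exact max_comm _ _

/-- swapping the columns -/
theorem nr_swap {ε : ℝ} {m : Mt} : m.swap ∈ Nr ε ↔ m ∈ Nr ε := by
  have h1 := norm_swap m
  have h2 : dt m.swap = -dt m := by
    unfold dt
    rw [Prod.fst_swap, Prod.snd_swap]
    ring
  unfold Nr
  simp only [mem_ofPred_eq]
  rw [h1, h2, norm_neg, ne_eq, neg_eq_zero]

theorem ap_swap (m : Mt) (p : ℂ × ℂ) : ap m.swap p.swap = ap m p := by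
  unfold ap
  rw [Prod.fst_swap, Prod.snd_swap, Prod.fst_swap, Prod.snd_swap]
  refine Prod.ext ?_ ?_
  · show m.2.1 * p.2 + m.1.1 * p.1 = _
    ring
  · show m.2.2 * p.2 + m.1.2 * p.1 = _
    ring

theorem nE_swap (p : ℂ × ℂ) : nE p.swap = nE p := by
  unfold nE
  rw [Prod.fst_swap, Prod.snd_swap, add_comm]

/-- the main volume bound, second column large -/
theorem col_two {F : ℂ × ℂ → ℂ × ℂ} (hF : Continuous F) (hF0 : ∀ u, u ≠ 0 → F u ≠ 0) {κ ε : ℝ}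
    (hκ : 0 ≤ κ) (hε : 0 ≤ ε) :
    volume {m : Mt | m ∈ Nr ε ∧ ‖m.2‖ = ‖m‖ ∧ ‖ap m (F m.2)‖ ≤ κ * ‖m‖ * nE (F m.2)} ≤
      ENNReal.ofReal (16 * Real.pi ^ 4 * κ ^ 2 * ε ^ 2) := by
  have h5 := col_one (F := fun u => (F u).swap) (continuous_swap.comp hF) (fun u hu h => by
    apply hF0 u hu
    have := congrArg Prod.swap h
    simpa using this) hκ hε
  have hsw : MeasurePreserving (Prod.swap : Mt → Mt) volume volume :=
    Measure.measurePreserving_swap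
  rw [← hsw.measure_preimage_equiv (f := MeasurableEquiv.prodComm)] at h5
  refine (measure_mono ?_).trans h5
  rintro m ⟨h1, h2, h3⟩
  refine ⟨nr_swap.2 h1, ?_, ?_⟩
  · show ‖m.2‖ = ‖m.swap‖
    rw [h2, norm_swap]
  · show ‖ap m.swap (F m.2).swap‖ ≤ κ * ‖m.swap‖ * nE (F m.2).swap
    rw [ap_swap, nE_swap, norm_swap]
    exact h3

theorem max_col (m : Mt) : ‖m.1‖ = ‖m‖ ∨ ‖m.2‖ = ‖m‖ := by
  rw [Prod.norm_def m]
  rcases max_choice ‖m.1‖ ‖m.2‖ with h | h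
  · exact Or.inl h.symm
  · exact Or.inr h.symm

/-- a fixed vector -/
theorem fixed_vec {y : ℂ × ℂ} (hy : y ≠ 0) {κ ε : ℝ} (hκ : 0 ≤ κ) (hε : 0 ≤ ε) :
    volume {m : Mt | m ∈ Nr ε ∧ ‖ap m y‖ ≤ κ * ‖m‖ * nE y} ≤
      ENNReal.ofReal (32 * Real.pi ^ 4 * κ ^ 2 * ε ^ 2) := by
  have h1 := col_one (F := fun _ => y) continuous_const (fun _ _ => hy) hκ hε
  have h2 := col_two (F := fun _ => y) continuous_const (fun _ _ => hy) hκ hε
  have h3 : {m : Mt | m ∈ Nr ε ∧ ‖ap m y‖ ≤ κ * ‖m‖ * nE y} ⊆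
      {m : Mt | m ∈ Nr ε ∧ ‖m.1‖ = ‖m‖ ∧ ‖ap m y‖ ≤ κ * ‖m‖ * nE y} ∪
      {m : Mt | m ∈ Nr ε ∧ ‖m.2‖ = ‖m‖ ∧ ‖ap m y‖ ≤ κ * ‖m‖ * nE y} := by
    rintro m ⟨h4, h5⟩
    rcases max_col m with h | h
    · exact Or.inl ⟨h4, h, h5⟩
    · exact Or.inr ⟨h4, h, h5⟩
  refine (measure_mono h3).trans ((measure_union_le _ _).trans ?_)
  refine (add_le_add h1 h2).trans ?_
  rw [← ENNReal.ofReal_add (by positivity) (by positivity)]
  refine ENNReal.ofReal_le_ofReal (le_of_eq ?_)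
  ring

theorem pi_four : Real.pi ^ 4 ≤ 98 := by
  have h1 : Real.pi ≤ 3.1416 := Real.pi_lt_d4.le
  have h2 : Real.pi ^ 4 ≤ 3.1416 ^ 4 := pow_le_pow_left₀ Real.pi_pos.le h1 4
  refine h2.trans ?_
  norm_num

theorem pi_four' : 97 ≤ Real.pi ^ 4 := by
  have h1 : 3.1415 ≤ Real.pi := Real.pi_gt_d4.le
  have h2 : 3.1415 ^ 4 ≤ Real.pi ^ 4 := pow_le_pow_left₀ (by norm_num) h1 4
  refine le_trans ?_ h2
  norm_num

/-- upper bound for the volume of the nearly singular matrices -/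
theorem nr_upper {ε : ℝ} (hε : 0 ≤ ε) : volume (Nr ε) ≤ ENNReal.ofReal (13000 * ε ^ 2) := by
  have h1 := fixed_vec (y := (1, 0)) (inf_ne 0) (κ := 2) (by norm_num) hε
  have h2 : Nr ε ⊆ {m : Mt | m ∈ Nr ε ∧ ‖ap m (1, 0)‖ ≤ 2 * ‖m‖ * nE (1, 0)} :=
    fun m hm => ⟨hm, ap_le m _⟩
  refine (measure_mono h2).trans (h1.trans (ENNReal.ofReal_le_ofReal ?_))
  have := pi_four
  nlinarith [sq_nonneg ε]

end Pool.Agent.Helper39.MB
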