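import Mathlib
import Pool.Agent.Helper39.MB.Meas

/-! Lower bound for the volume of the set of nearly singular matrices. -/

set_option autoImplicit false

open Topology Filter Metric Set MeasureTheory
open scoped OnePoint ComplexConjugate ENNReal NNReal
open Pool.Agent.R239.Fat

namespace Pool.Agent.Helper39.MB

theorem low_slice {a c : ℂ} (ha : a ≠ 0) {ε : ℝ} (hε : 0 < ε) :
    ENNReal.ofReal (Real.pi ^ 2 * ε ^ 2 / 256) ≤
    volume {v : ℂ × ℂ | ‖v.1‖ ≤ 1 / 4 ∧ ‖a * v.2 - v.1 * c‖ ≤ ε / 4 * ‖a‖ ∧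
      a * v.2 - v.1 * c ≠ 0} := by
  have ha0 := norm_pos_iff.2 ha
  set S : Set (ℂ × ℂ) := {v : ℂ × ℂ | ‖v.1‖ ≤ 1 / 4 ∧ ‖a * v.2 - v.1 * c‖ ≤ ε / 4 * ‖a‖ ∧
      a * v.2 - v.1 * c ≠ 0} with hS
  have hc : Continuous fun v : ℂ × ℂ => a * v.2 - v.1 * c := by fun_prop
  have hSm : MeasurableSet S := by
    refine MeasurableSet.inter ?_ (MeasurableSet.inter ?_ ?_)
    · exact (isClosed_le continuous_fst.norm continuous_const).measurableSet
    · exact (isClosed_le hc.norm continuous_const).measurableSet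
    · exact (isOpen_ne_fun hc continuous_const).measurableSet
  rw [Measure.volume_eq_prod, Measure.prod_apply hSm]
  have h1 : ∀ b : ℂ, (closedBall (0 : ℂ) (1 / 4)).indicator
      (fun _ => ENNReal.ofReal (Real.pi * (ε / 4) ^ 2)) b ≤ volume (Prod.mk b ⁻¹' S) := by
    intro b
    by_cases hb : b ∈ closedBall (0 : ℂ) (1 / 4)
    · rw [indicator_of_mem hb, ← vol_disc (b * c / a) (by positivity),
        ← measure_sdiff_null (t := {b * c / a}) (measure_singleton _)]
      refine measure_mono ?_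
      rintro e ⟨he, he'⟩
      rw [mem_closedBall, dist_eq_norm] at he
      rw [mem_closedBall, dist_zero_right] at hb
      have h2 : a * e - b * c = a * (e - b * c / a) := by
        field_simp
      refine ⟨hb, ?_, ?_⟩
      · show ‖a * e - b * c‖ ≤ ε / 4 * ‖a‖
        rw [h2, norm_mul, mul_comm]
        exact mul_le_mul_of_nonneg_right he (norm_nonneg _)
      · show a * e - b * c ≠ 0
        rw [h2]
        refine mul_ne_zero ha (sub_ne_zero.2 ?_)
        exact he'
    · rw [indicator_of_notMem hb]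
      exact bot_le
  refine le_trans ?_ (lintegral_mono h1)
  rw [lintegral_indicator_const isClosed_closedBall.measurableSet, vol_disc 0 (by norm_num),
    ← ENNReal.ofReal_mul (by positivity)]
  refine ENNReal.ofReal_le_ofReal (le_of_eq ?_)
  ring

theorem nr_lower {ε : ℝ} (hε : 0 < ε) (hε1 : ε ≤ 1) :
    ENNReal.ofReal (ε ^ 2 / 700) ≤ volume (Nr ε) := by
  set S : Set Mt := {m | (‖m.1.1 - 3 / 4‖ ≤ 1 / 4 ∧ ‖m.1.2‖ ≤ 1 / 4) ∧ ‖m.2.1‖ ≤ 1 / 4 ∧
    ‖dt m‖ ≤ ε / 4 * ‖m.1.1‖ ∧ dt m ≠ 0} with hS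
  have hSm : MeasurableSet S := by
    refine MeasurableSet.inter (MeasurableSet.inter ?_ ?_)
      (MeasurableSet.inter ?_ (MeasurableSet.inter ?_ ?_))
    · have h1 : Continuous fun m : Mt => ‖m.1.1 - 3 / 4‖ := by fun_prop
      exact (isClosed_le h1 continuous_const).measurableSet
    · have h1 : Continuous fun m : Mt => ‖m.1.2‖ := by fun_prop
      exact (isClosed_le h1 continuous_const).measurableSet
    · have h1 : Continuous fun m : Mt => ‖m.2.1‖ := by fun_prop
      exact (isClosed_le h1 continuous_const).measurableSet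
    · have h1 : Continuous fun m : Mt => ε / 4 * ‖m.1.1‖ := by fun_prop
      exact (isClosed_le dt_cont.norm h1).measurableSet
    · exact (isOpen_ne_fun dt_cont continuous_const).measurableSet
  have hsub : S ⊆ Nr ε := by
    rintro ⟨⟨a, c⟩, ⟨b, e⟩⟩ ⟨⟨h1, h2⟩, h3, h4, h5⟩
    simp only at h1 h2 h3 h4
    have h34 : ‖(3 / 4 : ℂ)‖ = 3 / 4 := by norm_num
    have ha1 : ‖a‖ ≤ 1 := by
      have h6 := norm_add_le (a - 3 / 4) (3 / 4)
      rw [sub_add_cancel, h34] at h6
      linarith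
    have ha2 : 1 / 2 ≤ ‖a‖ := by
      have h6 := norm_sub_norm_le (3 / 4 : ℂ) (3 / 4 - a)
      rw [sub_sub_cancel, norm_sub_rev, h34] at h6
      linarith
    have ha0 : 0 < ‖a‖ := by linarith
    have he : ‖e‖ ≤ ‖a‖ := by
      have h6 : ‖a‖ * ‖e‖ ≤ ε / 4 * ‖a‖ + 1 / 16 := by
        have h7 : a * e = dt ((a, c), (b, e)) + b * c := by
          unfold dt
          ring
        rw [← norm_mul, h7]
        refine (norm_add_le _ _).trans (add_le_add h4 ?_)
        rw [norm_mul]
        nlinarith [norm_nonneg b, norm_nonneg c]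
      by_contra hcon
      push Not at hcon
      nlinarith
    have hn : ‖(((a, c), (b, e)) : Mt)‖ = ‖a‖ := by
      rw [Prod.norm_def, Prod.norm_def, Prod.norm_def]
      simp only
      rw [max_eq_left (by linarith : ‖c‖ ≤ ‖a‖)]
      exact max_eq_left (max_le (by linarith) he)
    refine ⟨by rw [hn]; exact ha1, h5, ?_⟩
    rw [hn]
    refine h4.trans ?_
    have h6 := mul_nonneg (mul_nonneg hε.le ha0.le) (sub_nonneg.2 ha2)
    have h7 := mul_nonneg hε.le ha0.le
    nlinarith
  refine le_trans ?_ (measure_mono hsub)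
  rw [Measure.volume_eq_prod, Measure.prod_apply hSm]
  have h1 : ∀ u : ℂ × ℂ, (closedBall (3 / 4 : ℂ) (1 / 4) ×ˢ closedBall (0 : ℂ) (1 / 4)).indicator
      (fun _ => ENNReal.ofReal (Real.pi ^ 2 * ε ^ 2 / 256)) u ≤ volume (Prod.mk u ⁻¹' S) := by
    intro u
    by_cases hu : u ∈ closedBall (3 / 4 : ℂ) (1 / 4) ×ˢ closedBall (0 : ℂ) (1 / 4)
    · rw [indicator_of_mem hu]
      obtain ⟨h1, h2⟩ := hu
      rw [mem_closedBall, dist_eq_norm] at h1
      rw [mem_closedBall, dist_zero_right] at h2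
      have hne : u.1 ≠ 0 := by
        intro h0
        rw [h0, zero_sub, norm_neg] at h1
        norm_num at h1
      refine (low_slice (a := u.1) (c := u.2) hne hε).trans (measure_mono ?_)
      rintro v ⟨h3, h4, h5⟩
      exact ⟨⟨h1, h2⟩, h3, h4, h5⟩
    · rw [indicator_of_notMem hu]
      exact bot_le
  refine le_trans ?_ (lintegral_mono h1)
  rw [lintegral_indicator_const
    (isClosed_closedBall.prod isClosed_closedBall).measurableSet, Measure.volume_eq_prod,
    Measure.prod_prod, vol_disc _ (by norm_num), vol_disc _ (by norm_num),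
    ← ENNReal.ofReal_mul (by positivity), ← ENNReal.ofReal_mul (by positivity)]
  refine ENNReal.ofReal_le_ofReal ?_
  have h2 := pi_four'
  have h3 : Real.pi ^ 2 * ε ^ 2 / 256 * (Real.pi * (1 / 4) ^ 2 * (Real.pi * (1 / 4) ^ 2)) =
      Real.pi ^ 4 * ε ^ 2 / 65536 := by ring
  rw [h3]
  nlinarith [sq_nonneg ε]

end Pool.Agent.Helper39.MB
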