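import Mathlib
import Pool.Agent.Helper39.MB.Geo

/-! Words in Moebius maps composed with rational maps: if the images are close to points where
the matrices are not small, all words are hyperbolic. -/

set_option autoImplicit false

open Topology Filter Metric Set Polynomial
open scoped OnePoint ComplexConjugate
open Pool.Agent.H790R3.RB (CV hF cr ND sp pr hc pol)
open Pool.Agent.H790R3.RB.SP (pr_zero pr_ne pr_hc sp_pr sp_cont pr_eq_iff continuousAt_pr)
open Pool.Agent.H790R3.RB.PQ (hF_one hF_inf part1 sp_eval pol_natDegree)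
open Pool.Agent.R239.Fat

namespace Pool.Agent.Helper39.MB

/-- Rational maps are surjective. -/
theorem sp_surj {d : ℕ} (hd : 1 ≤ d) {x : CV d} (hx : ND x) : Function.Surjective (sp x) := by
  intro y
  obtain ⟨⟨u, v⟩, hp, rfl⟩ := exists_pr y
  -- the form `v P - u Q`
  set T : ℂ[X] := C v * pol x 0 - C u * pol x 1 with hT
  have key : ∀ q : ℂ × ℂ, q ≠ 0 → v * (hF x q).1 - u * (hF x q).2 = 0 → sp x (pr q) = pr (u, v) := by
    intro q hq h
    rw [sp_pr hx hq, pr_eq_iff (fun h => hq (hx _ h)) hp]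
    unfold cr
    linear_combination h
  by_cases h0 : T.degree = 0 ∨ T = 0
  · -- the value at infinity
    have h1 : T.coeff d = 0 := by
      rcases h0 with h0 | h0
      · exact coeff_eq_zero_of_degree_lt (by rw [h0]; exact_mod_cast hd)
      · rw [h0, coeff_zero]
    refine ⟨pr (1, 0), key _ (inf_ne 0) ?_⟩
    rw [hF_inf]
    rw [hT, coeff_sub, coeff_C_mul, coeff_C_mul] at h1
    exact h1
  · push Not at h0
    obtain ⟨z, hz⟩ := IsAlgClosed.exists_root T h0.1
    refine ⟨pr (z, 1), key _ (coe_ne z) ?_⟩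
    rw [hF_one]
    rw [IsRoot, hT, eval_sub, eval_mul, eval_mul, eval_C, eval_C] at hz
    exact hz

/-- words in the maps `m j ∘ f i` -/
inductive Wd {k l : ℕ} (m : Fin l → Mt) (f : Fin k → Sph → Sph) : (Sph → Sph) → Prop
  | one (j : Fin l) (i : Fin k) : Wd m f (fun z => mo (m j) (f i z))
  | comp (j : Fin l) (i : Fin k) {g : Sph → Sph} (h : Wd m f g) :
      Wd m f (fun z => mo (m j) (f i (g z)))

theorem locInj_inj {g h : Sph → Sph} {x : Sph} (hh : Function.Injective h)
    (h1 : ¬ LocInj (fun z => h (g z)) x) : ¬ LocInj g x := by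
  rintro ⟨U, hU, hU'⟩
  exact h1 ⟨U, hU, fun a ha b hb hab => hU' ha hb (hh hab)⟩

/-- all good: the deterministic theorem -/
theorem trap {k l : ℕ} {m : Fin l → Mt} {d : Fin k → ℕ} (hd : ∀ i, 1 ≤ d i)
    {x : ∀ i, CV (d i)} (hx : ∀ i, ND (x i)) {L ε s : ℝ} (hL : 0 < L)
    (hLip : ∀ i z w, chd (sp (x i) z) (sp (x i) w) ≤ L * chd z w)
    (hε : 0 < ε) (hε1 : ε ≤ 1) (hs : 0 < s) (hsL : s ^ 2 = L * ε)
    (hdt : ∀ j, dt (m j) ≠ 0) (hdε : ∀ j, ‖dt (m j)‖ ≤ ε * ‖m j‖ ^ 2)
    {e : Fin l → ℂ × ℂ} (he : ∀ j, nE (e j) = 1) (hem : ∀ j, ‖ap (m j) (e j)‖ = ‖m j‖)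
    (hA : ∀ j j' i, 3 * s * ‖m j'‖ < vf (m j') (sp (x i) (pr (ap (m j) (e j)))))
    (hB : ∀ j' i z, ¬ LocInj (sp (x i)) z → 3 * s * ‖m j'‖ < vf (m j') (sp (x i) z))
    {g : Sph → Sph} (hg : Wd m (fun i => sp (x i)) g) : Hyp g := by
  have hm0 : ∀ j, 0 < ‖m j‖ := by
    intro j
    refine norm_pos_iff.2 ?_
    intro h
    apply hdt j
    rw [h]
    simp [dt]
  have he0 : ∀ j, e j ≠ 0 := by
    intro j h
    have := he j
    rw [h] at this
    unfold nE at this
    simp at this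
  -- existence of indices
  obtain ⟨j₀, i₀⟩ : Nonempty (Fin l × Fin k) := by
    induction hg with
    | one j i => exact ⟨(j, i)⟩
    | comp j i _ _ => exact ⟨(j, i)⟩
  -- `1 ≤ L`
  have hL1 : 1 ≤ L := by
    obtain ⟨a, ha⟩ := sp_surj (hd i₀) (hx i₀) (pr (0, 1))
    obtain ⟨b, hb⟩ := sp_surj (hd i₀) (hx i₀) (pr (1, 0))
    have h1 := hLip i₀ a b
    rw [ha, hb, chd_pr (coe_ne 0) (inf_ne 0)] at h1
    have h2 : ‖cr ((0 : ℂ), (1 : ℂ)) (1, 0)‖ / (nE (0, 1) * nE (1, 0)) = 1 := by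
      unfold cr nE
      simp
    rw [h2] at h1
    have h3 := chd_le_one a b
    nlinarith
  have hεs : ε ≤ s := by
    by_contra hcon
    push Not at hcon
    nlinarith
  set ρ : ℝ := ε / s with hρ
  have hLρ : L * ρ = s := by
    rw [hρ, ← mul_div_assoc, ← hsL]
    field_simp
  set p : Fin l → Sph := fun j => pr (ap (m j) (e j)) with hp
  set V : Fin l → Set Sph := fun j => {z | s * ‖m j‖ < vf (m j) z} with hV
  set D : Set Sph := ⋃ j, {z | chd z (p j) ≤ ρ} with hD
  set W : Set Sph := ⋃ j, mo (m j) '' V j with hW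
  set K : Set Sph := ⋃ j, ⋃ i, mo (m j) '' (sp (x i) '' D) with hK
  have hVo : ∀ j, IsOpen (V j) := fun j => isOpen_lt continuous_const (vf_cont (m j))
  have hDc : IsClosed D := isClosed_iUnion_of_finite fun j =>
    isClosed_le (chd_cont (p j)) continuous_const
  have hWo : IsOpen W := isOpen_iUnion fun j =>
    (mobH (m j).1.1 (m j).2.1 (m j).1.2 (m j).2.2 (hdt j)).isOpenMap _ (hVo j)
  have hmc : ∀ j, Continuous (mo (m j)) := fun j => mob_cont (hdt j)
  have hmi : ∀ j, Function.Injective (mo (m j)) := fun j =>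
    (mobH (m j).1.1 (m j).2.1 (m j).1.2 (m j).2.2 (hdt j)).injective
  have hWD : W ⊆ D := by
    intro z hz
    rw [hW, mem_iUnion] at hz
    obtain ⟨j, w, hw, rfl⟩ := hz
    rw [hD, mem_iUnion]
    exact ⟨j, image_close (hdt j) hs (hdε j) (he j) (hem j) hw⟩
  have hDV : ∀ i j', ∀ z ∈ D, sp (x i) z ∈ V j' := by
    intro i j' z hz
    rw [hD, mem_iUnion] at hz
    obtain ⟨j, hz⟩ := hz
    have hz' : chd z (p j) ≤ ρ := hz
    have h1 := vf_lip (m j') (sp (x i) (p j)) (sp (x i) z)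
    have h2 := hLip i z (p j)
    have h3 : chd (sp (x i) z) (sp (x i) (p j)) ≤ s := by
      refine h2.trans ?_
      rw [← hLρ]
      exact mul_le_mul_of_nonneg_left hz' hL.le
    have h4 := hA j j' i
    have h5 := mul_le_mul_of_nonneg_left h3 (hm0 j').le
    show s * ‖m j'‖ < vf (m j') (sp (x i) z)
    have h6 : vf (m j') (sp (x i) (pr (ap (m j) (e j)))) = vf (m j') (sp (x i) (p j)) := rfl
    nlinarith
  have hKW : K ⊆ W := by
    intro z hz
    rw [hK, mem_iUnion] at hz
    obtain ⟨j, hz⟩ := hz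
    rw [mem_iUnion] at hz
    obtain ⟨i, _, ⟨w, hw, rfl⟩, rfl⟩ := hz
    rw [hW, mem_iUnion]
    exact ⟨j, sp (x i) w, hDV i j w hw, rfl⟩
  have hKc : IsCompact K := by
    refine isCompact_iUnion fun j => isCompact_iUnion fun i => ?_
    exact (hDc.isCompact.image (sp_cont (hx i))).image (hmc j)
  -- a point outside
  obtain ⟨z₀, hz₀⟩ : ∃ z₀ : ℂ, (z₀ : Sph) ∉ D := by
    by_contra hcon
    push Not at hcon
    have h1 : D = univ := by
      rw [← hDc.closure_eq]
      refine Dense.closure_eq ?_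
      exact OnePoint.denseRange_coe.mono (by rintro _ ⟨z, rfl⟩; exact hcon z)
    have h2 : ∀ y, s * ‖m j₀‖ < vf (m j₀) y := by
      intro y
      obtain ⟨z, rfl⟩ := sp_surj (hd i₀) (hx i₀) y
      exact hDV i₀ j₀ z (by rw [h1]; exact mem_univ z)
    -- the direction which is almost contracted
    have h3 : ∀ q : ℂ × ℂ, ‖m j₀‖ ≤ ‖q‖ → ‖ap (m j₀) q‖ = ‖dt (m j₀)‖ → False := by
      intro q hq hap
      have hq0 : q ≠ 0 := by
        rintro rfl
        rw [norm_zero] at hq
        exact absurd (hm0 j₀) (not_lt.2 hq)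
      have h4 := h2 (pr q)
      rw [vf_pr _ hq0, lt_div_iff₀ (nE_pos hq0), hap] at h4
      have h5 := hdε j₀
      have h6 : ‖m j₀‖ ≤ nE q := hq.trans (norm_le_nE q)
      have h7 : ε * ‖m j₀‖ ^ 2 ≤ s * ‖m j₀‖ * nE q := by
        have := hm0 j₀
        calc ε * ‖m j₀‖ ^ 2 ≤ s * ‖m j₀‖ ^ 2 := by gcongr
          _ = s * ‖m j₀‖ * ‖m j₀‖ := by ring
          _ ≤ s * ‖m j₀‖ * nE q := by gcongr
      linarith
    rcases hmj : m j₀ with ⟨⟨a, c⟩, ⟨b, e⟩⟩
    rw [hmj] at h3
    have h4 : ‖(((a, c), (b, e)) : Mt)‖ = max (max ‖a‖ ‖b‖) (max ‖c‖ ‖e‖) := by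
      rw [Prod.norm_def, Prod.norm_def, Prod.norm_def]
      simp only
      exact max_max_max_comm _ _ _ _
    rcases le_total (max ‖a‖ ‖b‖) (max ‖c‖ ‖e‖) with h5 | h5
    · refine h3 (e, -c) ?_ ?_
      · rw [h4, max_eq_right h5, Prod.norm_def]
        simp only [norm_neg]
        rw [max_comm]
      · unfold ap dt
        rw [Prod.norm_def]
        simp only
        have e1 : c * e + e * -c = 0 := by ring
        have e2 : a * e + b * -c = a * e - b * c := by ring
        rw [e1, e2, norm_zero]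
        exact max_eq_left (norm_nonneg _)
    · refine h3 (b, -a) ?_ ?_
      · rw [h4, max_eq_left h5, Prod.norm_def]
        simp only [norm_neg]
        rw [max_comm]
      · unfold ap dt
        rw [Prod.norm_def]
        simp only
        have e1 : a * b + b * -a = 0 := by ring
        have e2 : c * b + e * -a = -(a * e - b * c) := by ring
        rw [e1, e2, norm_zero, norm_neg]
        exact max_eq_right (norm_nonneg _)
  have hcl : closure W ⊆ D := closure_minimal hWD hDc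
  have hfH : ∀ i, Hol (sp (x i)) := fun i => hol_sp (hd i) (hx i)
  have hmH : ∀ j, Hol (mo (m j)) := fun j => hol_mob (hdt j)
  -- words
  have key : ∀ g, Wd m (fun i => sp (x i)) g → Hol g ∧ (∀ z ∈ W, g z ∈ K) ∧
      ∀ z, ¬ LocInj g z → g z ∈ W := by
    intro g hg
    induction hg with
    | one j i =>
      refine ⟨(hfH i).comp (hmH j), fun z hz => ?_, fun z hz => ?_⟩
      · rw [hK, mem_iUnion]
        refine ⟨j, ?_⟩
        rw [mem_iUnion]
        exact ⟨i, sp (x i) z, ⟨z, hWD hz, rfl⟩, rfl⟩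
      · have h1 := locInj_inj (hmi j) hz
        have h2 := hB j i z h1
        rw [hW, mem_iUnion]
        refine ⟨j, sp (x i) z, ?_, rfl⟩
        show s * ‖m j‖ < vf (m j) (sp (x i) z)
        have := mul_pos hs (hm0 j)
        nlinarith
    | comp j i hg ih =>
      rename_i g
      obtain ⟨ih1, ih2, ih3⟩ := ih
      refine ⟨ih1.comp ((hfH i).comp (hmH j)), fun z hz => ?_, fun z hz => ?_⟩
      · rw [hK, mem_iUnion]
        refine ⟨j, ?_⟩
        rw [mem_iUnion]
        exact ⟨i, sp (x i) (g z), ⟨g z, hWD (hKW (ih2 z hz)), rfl⟩, rfl⟩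
      · by_cases h1 : LocInj g z
        · have h2 : ¬ LocInj (sp (x i)) (g z) := by
            have h3 : ¬ LocInj (fun z => sp (x i) (g z)) z :=
              locInj_inj (g := fun z => sp (x i) (g z)) (hmi j) hz
            intro h4
            exact h3 (locInj_comp ih1.cont h1 h4)
          have h3 := hB j i (g z) h2
          rw [hW, mem_iUnion]
          refine ⟨j, sp (x i) (g z), ?_, rfl⟩
          show s * ‖m j‖ < vf (m j) (sp (x i) (g z))
          have := mul_pos hs (hm0 j)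
          nlinarith
        · apply hKW
          rw [hK, mem_iUnion]
          refine ⟨j, ?_⟩
          rw [mem_iUnion]
          exact ⟨i, sp (x i) (g z), ⟨g z, hWD (ih3 z h1), rfl⟩, rfl⟩
  obtain ⟨h1, h2, h3⟩ := key g hg
  intro c hc
  apply att_of_iter h1.cont (m := 1)
  exact trap_att h1 hWo hKc hKW (fun h => hz₀ (hcl h)) h2 _ (h3 c hc)

end Pool.Agent.Helper39.MB
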