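import Mathlib
import Pool.Agent.Helper39.MB.Low
import Pool.Agent.Helper39.MB.Trap
import Pool.Agent.Helper39.MB.Lip
import Pool.Agent.Helper39.MB.Crit

/-! The proportion of tuples of nearly singular matrices with a word which is not hyperbolic. -/

set_option autoImplicit false

open Topology Filter Metric Set MeasureTheory
open scoped OnePoint ComplexConjugate ENNReal NNReal
open Pool.Agent.H790R3.RB (CV hF cr ND sp pr hc pol hF_smul)
open Pool.Agent.H790R3.RB.SP (pr_zero pr_ne pr_hc sp_pr sp_cont pr_eq_iff continuousAt_pr)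
open Pool.Agent.R239.Fat

namespace Pool.Agent.Helper39.MB

theorem fub {n : ℕ} (j : Fin (n + 1)) {N : Set Mt} (hN : MeasurableSet N)
    {S : Set (Fin (n + 1) → Mt)} (hS : MeasurableSet S) (hSN : ∀ m ∈ S, ∀ i, m i ∈ N) {c : ℝ≥0∞}
    (h : ∀ r : Fin n → Mt, (∀ i, r i ∈ N) →
      volume {y : Mt | (j.insertNth y r : Fin (n + 1) → Mt) ∈ S} ≤ c) :
    volume S ≤ c * volume N ^ n := by
  have h1 := volume_preserving_piFinSuccAbove (fun _ : Fin (n + 1) => Mt) j
  set e := MeasurableEquiv.piFinSuccAbove (fun _ : Fin (n + 1) => Mt) j with he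
  have h2 : S = e ⁻¹' (e.symm ⁻¹' S) := by
    ext m
    simp
  rw [h2, h1.measure_preimage_equiv]
  have hm : MeasurableSet (e.symm ⁻¹' S) := e.symm.measurable hS
  have : SigmaFinite (volume : Measure (Fin n → Mt)) :=
    Measure.pi.sigmaFinite fun _ : Fin n => (volume : Measure Mt)
  suffices h7 : ((volume : Measure Mt).prod (volume : Measure (Fin n → Mt))) (e.symm ⁻¹' S) ≤
      c * volume N ^ n from h7
  rw [Measure.prod_apply_symm hm]
  have h3 : ∀ r : Fin n → Mt, volume ((fun y : Mt => (y, r)) ⁻¹' (e.symm ⁻¹' S)) ≤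
      (Set.pi univ fun _ : Fin n => N).indicator (fun _ => c) r := by
    intro r
    by_cases hr : ∀ i, r i ∈ N
    · rw [indicator_of_mem (by simpa using hr)]
      exact h r hr
    · have h4 : (fun y : Mt => (y, r)) ⁻¹' (e.symm ⁻¹' S) = ∅ := by
        ext y
        simp only [mem_preimage, mem_empty_iff_false, iff_false]
        intro hy
        apply hr
        intro i
        have h5 := hSN _ hy (j.succAbove i)
        have h6 : e.symm (y, r) (j.succAbove i) = r i :=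
          Fin.insertNth_apply_succAbove (α := fun _ : Fin (n + 1) => Mt) j y r i
        rw [h6] at h5
        exact h5
      rw [h4, measure_empty]
      exact bot_le
  refine (lintegral_mono h3).trans ?_
  rw [lintegral_indicator_const (MeasurableSet.univ_pi fun _ => hN), volume_pi_pi]
  simp

/-- the matrix `j'` almost kills the vector `y` -/
def evA {l : ℕ} (ε κ : ℝ) (j' : Fin l) (y : ℂ × ℂ) : Set (Fin l → Mt) :=
  {m | (∀ i, m i ∈ Nr ε) ∧ ‖ap (m j') y‖ ≤ κ * ‖m j'‖ * nE y}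

/-- the matrix `j'` almost kills the image of the large column `c` of the matrix `j` -/
def evB {l : ℕ} (ε κ : ℝ) (c : Mt → ℂ × ℂ) (F : ℂ × ℂ → ℂ × ℂ) (j j' : Fin l) :
    Set (Fin l → Mt) :=
  {m | (∀ i, m i ∈ Nr ε) ∧ ‖c (m j)‖ = ‖m j‖ ∧
    ‖ap (m j') (F (c (m j)))‖ ≤ κ * ‖m j'‖ * nE (F (c (m j)))}

theorem ap_cont2 : Continuous fun q : Mt × (ℂ × ℂ) => ap q.1 q.2 := by
  unfold ap
  fun_prop

theorem all_meas {l : ℕ} (ε : ℝ) : MeasurableSet {m : Fin l → Mt | ∀ i, m i ∈ Nr ε} := by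
  have h1 : {m : Fin l → Mt | ∀ i, m i ∈ Nr ε} = ⋂ i, (fun m : Fin l → Mt => m i) ⁻¹' Nr ε := by
    ext m
    simp
  rw [h1]
  exact MeasurableSet.iInter fun i => (measurable_pi_apply i) (nr_meas ε)

theorem coord_cont {l : ℕ} (j : Fin l) : Continuous fun m : Fin l → Mt => m j :=
  continuous_apply j

theorem meas_evA {l : ℕ} (ε κ : ℝ) (j' : Fin l) (y : ℂ × ℂ) : MeasurableSet (evA ε κ j' y) := by
  refine (all_meas ε).inter ?_
  have h0 : Continuous fun m : Fin l → Mt => ((m j', y) : Mt × (ℂ × ℂ)) :=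
    (coord_cont j').prodMk continuous_const
  have h1 : Continuous fun m : Fin l → Mt => ‖ap (m j') y‖ := (ap_cont2.comp h0).norm
  have h2 : Continuous fun m : Fin l → Mt => κ * ‖m j'‖ * nE y :=
    (continuous_const.mul (coord_cont j').norm).mul continuous_const
  exact (isClosed_le h1 h2).measurableSet

theorem meas_evB {l : ℕ} (ε κ : ℝ) {c : Mt → ℂ × ℂ} (hc : Continuous c) {F : ℂ × ℂ → ℂ × ℂ}
    (hF : Continuous F) (j j' : Fin l) : MeasurableSet (evB ε κ c F j j') := by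
  have h0 : Continuous fun m : Fin l → Mt => c (m j) := hc.comp (coord_cont j)
  have h0' : Continuous fun m : Fin l → Mt => F (c (m j)) := hF.comp h0
  refine (all_meas ε).inter (MeasurableSet.inter ?_ ?_)
  · exact (isClosed_eq h0.norm (coord_cont j).norm).measurableSet
  · have h3 : Continuous fun m : Fin l → Mt => ((m j', F (c (m j))) : Mt × (ℂ × ℂ)) :=
      (coord_cont j').prodMk h0'
    have h1 : Continuous fun m : Fin l → Mt => ‖ap (m j') (F (c (m j)))‖ :=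
      (ap_cont2.comp h3).norm
    have h2 : Continuous fun m : Fin l → Mt => κ * ‖m j'‖ * nE (F (c (m j))) :=
      (continuous_const.mul (coord_cont j').norm).mul (nE_cont.comp h0')
    exact (isClosed_le h1 h2).measurableSet

theorem vol_evA {n : ℕ} {ε κ : ℝ} (hε : 0 ≤ ε) (hκ : 0 ≤ κ) (j' : Fin (n + 1)) {y : ℂ × ℂ}
    (hy : y ≠ 0) : volume (evA ε κ j' y) ≤
      ENNReal.ofReal (32 * Real.pi ^ 4 * κ ^ 2 * ε ^ 2) * volume (Nr ε) ^ n := by
  refine fub j' (nr_meas ε) (meas_evA ε κ j' y) (fun m hm => hm.1) fun r _ => ?_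
  refine (measure_mono ?_).trans (fixed_vec hy hκ hε)
  rintro m ⟨h1, h2⟩
  have h3 : (j'.insertNth m r : Fin (n + 1) → Mt) j' = m :=
    Fin.insertNth_apply_same (α := fun _ : Fin (n + 1) => Mt) j' m r
  have h4 := h1 j'
  rw [h3] at h4 h2
  exact ⟨h4, h2⟩

theorem vol_evB {n : ℕ} {ε κ : ℝ} (hε : 0 ≤ ε) (hκ : 0 ≤ κ) {c : Mt → ℂ × ℂ} (hc : Continuous c)
    {F : ℂ × ℂ → ℂ × ℂ} (hF : Continuous F) (hF0 : ∀ u, u ≠ 0 → F u ≠ 0)
    (hb : volume {m : Mt | m ∈ Nr ε ∧ ‖c m‖ = ‖m‖ ∧ ‖ap m (F (c m))‖ ≤ κ * ‖m‖ * nE (F (c m))} ≤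
      ENNReal.ofReal (32 * Real.pi ^ 4 * κ ^ 2 * ε ^ 2)) (j j' : Fin (n + 1)) :
    volume (evB ε κ c F j j') ≤
      ENNReal.ofReal (32 * Real.pi ^ 4 * κ ^ 2 * ε ^ 2) * volume (Nr ε) ^ n := by
  refine fub j' (nr_meas ε) (meas_evB ε κ hc hF j j') (fun m hm => hm.1) fun r hr => ?_
  have h3 : ∀ m : Mt, (j'.insertNth m r : Fin (n + 1) → Mt) j' = m := fun m =>
    Fin.insertNth_apply_same (α := fun _ : Fin (n + 1) => Mt) j' m r
  by_cases hj : j = j'
  · subst hj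
    refine (measure_mono ?_).trans hb
    rintro m ⟨h1, h2, h4⟩
    have h5 := h1 j
    rw [h3] at h5 h2 h4
    exact ⟨h5, h2, h4⟩
  · obtain ⟨i, rfl⟩ := Fin.exists_succAbove_eq hj
    have h6 : ∀ m : Mt, (j'.insertNth m r : Fin (n + 1) → Mt) (j'.succAbove i) = r i := fun m =>
      Fin.insertNth_apply_succAbove (α := fun _ : Fin (n + 1) => Mt) j' m r i
    by_cases hu : c (r i) = 0
    · have h7 : {y : Mt | (j'.insertNth y r : Fin (n + 1) → Mt) ∈
          evB ε κ c F (j'.succAbove i) j'} = ∅ := by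
        ext m
        simp only [mem_empty_iff_false, iff_false]
        rintro ⟨-, h2, -⟩
        rw [h6, hu, norm_zero] at h2
        have h8 : r i = 0 := norm_eq_zero.1 h2.symm
        apply (hr i).2.1
        rw [h8]
        simp [dt]
      rw [h7, measure_empty]
      exact bot_le
    · refine (measure_mono ?_).trans (fixed_vec (hF0 _ hu) hκ hε)
      rintro m ⟨h1, h2, h4⟩
      have h5 := h1 j'
      rw [h3] at h5 h4
      rw [h6] at h4
      exact ⟨h5, h4⟩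

/-- the exceptional set is covered by the events -/
theorem cover {k l : ℕ} {d : Fin k → ℕ} (hd : ∀ i, 1 ≤ d i)
    {x : ∀ i, CV (d i)} (hx : ∀ i, ND (x i)) {L ε s : ℝ} (hL : 0 < L)
    (hLip : ∀ i z w, chd (sp (x i) z) (sp (x i) w) ≤ L * chd z w)
    (hε : 0 < ε) (hε1 : ε ≤ 1) (hs : 0 < s) (hsL : s ^ 2 = L * ε)
    {E : Fin k → Finset Sph} (hE : ∀ i y, ¬ LocInj (sp (x i)) y → sp (x i) y ∈ E i) :
    {m : Fin l → Mt | (∀ j, m j ∈ Nr ε) ∧ ∃ g, Wd m (fun i => sp (x i)) g ∧ ¬ Hyp g} ⊆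
      (⋃ j' : Fin l, ⋃ i : Fin k, ⋃ y ∈ E i, evA ε (3 * s) j' (hc y)) ∪
      (⋃ j : Fin l, ⋃ j' : Fin l, ⋃ i : Fin k, (evB ε (3 * s) Prod.fst (hF (x i)) j j' ∪
        evB ε (3 * s) Prod.snd (hF (x i)) j j')) := by
  rintro m ⟨hm, g, hg, hng⟩
  by_contra hcon
  rw [mem_union, not_or] at hcon
  obtain ⟨hc1, hc2⟩ := hcon
  simp only [mem_iUnion, not_exists] at hc1 hc2
  apply hng
  -- the large columns
  have he : ∀ j, ∃ e : ℂ × ℂ, nE e = 1 ∧ ((‖(m j).1‖ = ‖m j‖ ∧ ap (m j) e = (m j).1) ∨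
      (‖(m j).2‖ = ‖m j‖ ∧ ap (m j) e = (m j).2)) := by
    intro j
    rcases max_col (m j) with h | h
    · refine ⟨(1, 0), ?_, Or.inl ⟨h, ?_⟩⟩
      · unfold nE
        simp
      · unfold ap
        simp
    · refine ⟨(0, 1), ?_, Or.inr ⟨h, ?_⟩⟩
      · unfold nE
        simp
      · unfold ap
        simp
  choose e he1 he2 using he
  have hem : ∀ j, ‖ap (m j) (e j)‖ = ‖m j‖ := by
    intro j
    rcases he2 j with ⟨h1, h2⟩ | ⟨h1, h2⟩
    · rw [h2, h1]
    · rw [h2, h1]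
  have he0 : ∀ j, e j ≠ 0 := fun j => ne_of_unit (he1 j)
  refine trap hd hx hL hLip hε hε1 hs hsL (fun j => (hm j).2.1) (fun j => (hm j).2.2) he1 hem
    (fun j j' i => ?_) (fun j' i z hz => ?_) hg
  · have h0 : ap (m j) (e j) ≠ 0 := ap_ne (hm j).2.1 (he0 j)
    have h1 : hF (x i) (ap (m j) (e j)) ≠ 0 := fun h => h0 (hx i _ h)
    rw [sp_pr (hx i) h0, vf_pr _ h1, lt_div_iff₀ (nE_pos h1)]
    by_contra hlt
    push Not at hlt
    have h2 := hc2 j j' i
    rw [mem_union, not_or] at h2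
    rcases he2 j with ⟨h3, h4⟩ | ⟨h3, h4⟩
    · rw [h4] at hlt
      exact h2.1 ⟨hm, h3, hlt⟩
    · rw [h4] at hlt
      exact h2.2 ⟨hm, h3, hlt⟩
  · have h1 := (pr_hc (sp (x i) z)).2
    show 3 * s * ‖m j'‖ < ‖ap (m j') (hc (sp (x i) z))‖ / nE (hc (sp (x i) z))
    rw [lt_div_iff₀ (nE_pos h1)]
    by_contra hlt
    push Not at hlt
    exact hc1 j' i (sp (x i) z) (hE i z hz) ⟨hm, hlt⟩

theorem prob {k l : ℕ} {d : Fin k → ℕ} (hd : ∀ i, 1 ≤ d i)
    {x : ∀ i, CV (d i)} (hx : ∀ i, ND (x i)) {L ε : ℝ} (hL : 0 < L)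
    (hLip : ∀ i z w, chd (sp (x i) z) (sp (x i) w) ≤ L * chd z w)
    (hε : 0 < ε) (hε1 : ε ≤ 1) :
    volume {m : Fin l → Mt | (∀ j, m j ∈ Nr ε) ∧ ∃ g, Wd m (fun i => sp (x i)) g ∧ ¬ Hyp g} ≤
      ENNReal.ofReal (10 ^ 8 * L * (∑ i, d i : ℕ) * l ^ 2 * ε) * volume (Nr ε) ^ l := by
  rcases l with _ | n
  · have h1 : {m : Fin 0 → Mt | (∀ j, m j ∈ Nr ε) ∧ ∃ g, Wd m (fun i => sp (x i)) g ∧ ¬ Hyp g} =
        ∅ := by
      ext m
      simp only [mem_ofPred_eq, mem_empty_iff_false, iff_false]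
      rintro ⟨-, g, hg, -⟩
      cases hg with
      | one j i => exact j.elim0
      | comp j i h => exact j.elim0
    rw [h1, measure_empty]
    exact bot_le
  choose E hEc hE using fun i => crit_card (hd i) (hx i)
  set s := Real.sqrt (L * ε) with hs
  have hLε : 0 < L * ε := by positivity
  have hs0 : 0 < s := Real.sqrt_pos.2 hLε
  have hs2 : s ^ 2 = L * ε := Real.sq_sqrt hLε.le
  refine (measure_mono (cover hd hx hL hLip hε hε1 hs0 hs2 hE)).trans ?_
  set c := ENNReal.ofReal (32 * Real.pi ^ 4 * (3 * s) ^ 2 * ε ^ 2) * volume (Nr ε) ^ n with hc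
  have hFc : ∀ i, Continuous (hF (x i)) := fun i => (lift_sp (hx i)).cd.continuous
  have hF0 : ∀ i u, u ≠ 0 → hF (x i) u ≠ 0 := fun i u hu h => hu (hx i u h)
  have h3s : 0 ≤ 3 * s := by positivity
  have hmono : ENNReal.ofReal (16 * Real.pi ^ 4 * (3 * s) ^ 2 * ε ^ 2) ≤
      ENNReal.ofReal (32 * Real.pi ^ 4 * (3 * s) ^ 2 * ε ^ 2) := by
    refine ENNReal.ofReal_le_ofReal ?_
    have : 0 ≤ Real.pi ^ 4 * (3 * s) ^ 2 * ε ^ 2 := by positivity
    nlinarith
  have hA : volume (⋃ j' : Fin (n + 1), ⋃ i : Fin k, ⋃ y ∈ E i, evA ε (3 * s) j' (Pool.Agent.H790R3.RB.hc y)) ≤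
      ∑ _j' : Fin (n + 1), ∑ i : Fin k, ∑ _y ∈ E i, c := by
    refine (measure_iUnion_fintype_le _ _).trans (Finset.sum_le_sum fun j' _ => ?_)
    refine (measure_iUnion_fintype_le _ _).trans (Finset.sum_le_sum fun i _ => ?_)
    refine (measure_biUnion_finset_le _ _).trans (Finset.sum_le_sum fun y _ => ?_)
    exact vol_evA hε.le h3s j' (pr_hc y).2
  have hB : volume (⋃ j : Fin (n + 1), ⋃ j' : Fin (n + 1), ⋃ i : Fin k,
      (evB ε (3 * s) Prod.fst (hF (x i)) j j' ∪ evB ε (3 * s) Prod.snd (hF (x i)) j j')) ≤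
      ∑ _j : Fin (n + 1), ∑ _j' : Fin (n + 1), ∑ _i : Fin k, (c + c) := by
    refine (measure_iUnion_fintype_le _ _).trans (Finset.sum_le_sum fun j _ => ?_)
    refine (measure_iUnion_fintype_le _ _).trans (Finset.sum_le_sum fun j' _ => ?_)
    refine (measure_iUnion_fintype_le _ _).trans (Finset.sum_le_sum fun i _ => ?_)
    refine (measure_union_le _ _).trans (add_le_add ?_ ?_)
    · exact vol_evB hε.le h3s continuous_fst (hFc i) (hF0 i)
        ((col_one (hFc i) (hF0 i) h3s hε.le).trans hmono) j j'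
    · exact vol_evB hε.le h3s continuous_snd (hFc i) (hF0 i)
        ((col_two (hFc i) (hF0 i) h3s hε.le).trans hmono) j j'
  refine (measure_union_le _ _).trans ((add_le_add hA hB).trans ?_)
  -- the volume of one event
  have hcV : c ≤ ENNReal.ofReal (19756800 * (L * ε)) * volume (Nr ε) ^ (n + 1) := by
    rw [hc, pow_succ' _ n, ← mul_assoc]
    gcongr
    refine le_trans ?_ (mul_le_mul_right (nr_lower hε hε1) _)
    rw [← ENNReal.ofReal_mul (by positivity)]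
    refine ENNReal.ofReal_le_ofReal ?_
    rw [mul_pow, hs2]
    have h1 := pi_four
    have h2 : 0 ≤ L * ε * ε ^ 2 := by positivity
    nlinarith
  set D : ℕ := ∑ i, d i with hD
  have hkD : k ≤ D := by
    have h1 : ∑ _i : Fin k, 1 ≤ ∑ i, d i := Finset.sum_le_sum fun i _ => hd i
    simpa using h1
  have hcount : (∑ _j' : Fin (n + 1), ∑ i : Fin k, ∑ _y ∈ E i, c) +
      ∑ _j : Fin (n + 1), ∑ _j' : Fin (n + 1), ∑ _i : Fin k, (c + c) ≤
      ((5 * D * (n + 1) ^ 2 : ℕ) : ℝ≥0∞) * c := by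
    simp only [Finset.sum_const, Finset.card_univ, Fintype.card_fin, nsmul_eq_mul]
    have h1 : ∑ i : Fin k, ((E i).card : ℝ≥0∞) * c = ((∑ i, (E i).card : ℕ) : ℝ≥0∞) * c := by
      rw [← Finset.sum_mul]
      push_cast
      rfl
    rw [h1]
    have h2 : ((n + 1 : ℕ) : ℝ≥0∞) * (((∑ i, (E i).card : ℕ) : ℝ≥0∞) * c) +
        ((n + 1 : ℕ) : ℝ≥0∞) * (((n + 1 : ℕ) : ℝ≥0∞) * ((k : ℝ≥0∞) * (c + c))) =
        (((n + 1) * (∑ i, (E i).card) + (n + 1) * ((n + 1) * (k * 2)) : ℕ) : ℝ≥0∞) * c := by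
      push_cast
      ring
    rw [h2]
    gcongr
    have h3 : ∑ i, (E i).card ≤ 3 * D := by
      rw [hD, Finset.mul_sum]
      exact Finset.sum_le_sum fun i _ => hEc i
    have h4 : (n + 1) * (∑ i, (E i).card) ≤ (n + 1) ^ 2 * (3 * D) := by
      refine Nat.mul_le_mul ?_ h3
      nlinarith
    have h5 : (n + 1) * ((n + 1) * (k * 2)) ≤ (n + 1) ^ 2 * (2 * D) := by
      have : (n + 1) * ((n + 1) * (k * 2)) = (n + 1) ^ 2 * (2 * k) := by ring
      rw [this]
      gcongr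
    nlinarith
  refine hcount.trans ?_
  refine (mul_le_mul_right hcV _).trans ?_
  rw [← mul_assoc]
  refine mul_le_mul_left ?_ _
  rw [← ENNReal.ofReal_natCast, ← ENNReal.ofReal_mul (by positivity)]
  refine ENNReal.ofReal_le_ofReal ?_
  push_cast
  have h1 : (0 : ℝ) ≤ L * D * (n + 1) ^ 2 * ε := by positivity
  nlinarith

end Pool.Agent.Helper39.MB
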